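import Pool.Agent.helper53.AU.SpecG3

/-!
# Project au, module C9: case (c) is impossible
-/

namespace Pool.Agent.helper53.AU

open scoped Classical

theorem C9_prime {L : Type} [Group L] [Finite L] (x : L) (hx : x ≠ 1) :
    ∃ n : ℕ, (orderOf (x ^ n)).Prime := by
  have h1 : orderOf x ≠ 1 := fun h => hx (orderOf_eq_one_iff.1 h)
  obtain ⟨p, hp, hpd⟩ := Nat.exists_prime_and_dvd h1
  have hpos : 0 < orderOf x := orderOf_pos x
  refine ⟨orderOf x / p, ?_⟩
  have h2 : orderOf (x ^ (orderOf x / p)) = p := by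
    rw [orderOf_pow_of_dvd (Nat.div_pos (Nat.le_of_dvd hpos hpd) hp.pos).ne'
      (Nat.div_dvd_of_dvd hpd)]
    exact Nat.div_div_self hpd hpos.ne'
  rw [h2]
  exact hp

theorem C9 (hC1 : C1_stmt) (hM3 : M3_stmt) (hC2 : C2_stmt) (hC3 : C3_stmt) (hC5 : C5_stmt)
    (hC7 : C7_stmt) (hC8 : C8_stmt) (hXX : XX_stmt) (hAB : AB_stmt) (hPLL : PLL_stmt)
    (hP1 : P1_stmt) : C9_stmt := by
  intro L Ω _ _ A t hLL ht hTG
  have hfinL : Finite L := hLL.finL
  have hfinΩ : Finite Ω := hLL.finΩ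
  by_contra hcon
  push Not at hcon
  obtain ⟨⟨a₁, ha₁, hne⟩, a₀, ha₀, hta₀, ha₀1⟩ := hcon
  have hPL := hPLL L Ω A hLL
  obtain ⟨hAB1, hAB2, -, -, -, -, -, -, -, -⟩ := hAB L A hLL.cyc
  -- the element of prime order
  obtain ⟨n₀, hn₀⟩ := C9_prime a₀ ha₀1
  set ρ : L := a₀ ^ n₀ with hρdef
  have hρ : ρ ∈ oddPart A := Subgroup.pow_mem _ ha₀ _
  have htρ : t * ρ = ρ * t := by
    have h1 : Commute t a₀ := hta₀
    exact h1.pow_right n₀
  obtain ⟨E, hEc, hEn, hEs, hEe⟩ := hC1 L Ω A t ρ hLL ht hρ hn₀ htρ ⟨a₁, ha₁, hne⟩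
  have hM := hM3 L Ω A t ρ hLL ht hρ hn₀ htρ E hEc hEn hEs hEe
  have hCC : CaseC L Ω A E t ρ :=
    { LL := hLL
      dih := ht
      mem := hρ
      pr := hn₀
      comm := htρ
      ne := ⟨a₁, ha₁, hne⟩
      Ecent := hEc
      Enorm := hEn
      simple := hEs
      even := hEe
      EC := fun α => (hM α).1
      EG := fun α => hTG E (MulAction.orbit E α) (A.subgroupOf E) (hM α).1 (hM α).2 }
  obtain ⟨-, -, hinvE⟩ := hC2 L Ω A E t ρ hCC
  obtain ⟨-, -, -, hcardAc⟩ := hC3 L Ω A E t ρ hCC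
  have h2t := hC5 L Ω A E t ρ hCC
  obtain ⟨c, b, j, hcodd, hc3, hΩ, -, -, hbdvd, hstab, hcent, -⟩ := hXX L Ω A hLL h2t
  obtain ⟨⟨τ, hτA, hτ⟩, -⟩ := hP1 L Ω A hPL
  -- A is commutative
  have hcomm : ∀ x ∈ A, ∀ y ∈ A, x * y = y * x := by
    intro x hx y hy
    have hcyc : IsCyclic A := hLL.cyc
    have h1 : (⟨x, hx⟩ : A) * ⟨y, hy⟩ = ⟨y, hy⟩ * ⟨x, hx⟩ := by
      let _ : CommGroup A := IsCyclic.commGroup
      exact mul_comm _ _
    have h2 := congrArg Subtype.val h1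
    exact h2
  have hρA : ρ ∈ A := ((hAB1 ρ).1 hρ).1
  have hτρ : τ * ρ = ρ * τ := hcomm τ hτA ρ hρA
  have hτE : τ ∈ E := hinvE τ hτ hτρ
  obtain ⟨α⟩ := hPL.nonempty
  -- the subgroup Ac
  let Ac : Subgroup L :=
    { carrier := {a : L | a ∈ oddPart A ∧ t * a = a * t}
      mul_mem' := by
        intro x y hx hy
        refine ⟨Subgroup.mul_mem _ hx.1 hy.1, ?_⟩
        have h1 : Commute t x := hx.2
        have h2 : Commute t y := hy.2
        exact h1.mul_right h2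
      one_mem' := ⟨Subgroup.one_mem _, by simp⟩
      inv_mem' := by
        intro x hx
        refine ⟨Subgroup.inv_mem _ hx.1, ?_⟩
        have h1 : Commute t x := hx.2
        exact h1.inv_right }
  have hAcm : ∀ a : L, a ∈ Ac ↔ a ∈ oddPart A ∧ t * a = a * t := fun a => Iff.rfl
  obtain ⟨hmod, hcnt⟩ := hC7 L Ω A E Ac t ρ τ hCC hTG hAcm hτA hτ
  have hAccard : Nat.card Ac = Nat.card {a : L // a ∈ oddPart A ∧ t * a = a * t} := rfl
  -- data of E
  have hG := hCC.EG α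
  obtain ⟨c', -, hc'3, hΩ', hstab'⟩ := hG.card
  have hE2 : 2 * Nat.card (A.subgroupOf E) = 3 ^ c' + 1 := by
    rw [(hCC.EC α).cardA, hΩ']
  have hAE : Nat.card (A.subgroupOf E) = Nat.card (A ⊓ E : Subgroup L) := by
    have h1 : (A.subgroupOf E) = (A ⊓ E).subgroupOf E := by
      rw [Subgroup.inf_subgroupOf_right]
    rw [h1]
    exact Nat.card_congr (Subgroup.subgroupOfEquivOfLe inf_le_right).toEquiv
  -- 3 ^ c + 1 = Q * (3 ^ c' + 1)
  have hQ : 3 ^ c + 1 = Nat.card Ac * (3 ^ c' + 1) := by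
    rw [← hΩ, ← hLL.cardA, ← hcardAc, ← hAccard, ← hE2, hAE]
    ring
  have hAc1 : 1 < Nat.card Ac := by
    have hρAc : ρ ∈ Ac := ⟨hρ, htρ⟩
    have hρ1 : ρ ≠ 1 := by
      intro h
      rw [h, orderOf_one] at hn₀
      exact Nat.not_prime_one hn₀
    have h3 : Nontrivial Ac := ⟨⟨⟨ρ, hρAc⟩, 1, fun h => hρ1 (congrArg Subtype.val h)⟩⟩
    exact Finite.one_lt_card
  -- orders of L and E
  have hLcard : Nat.card L = (3 ^ c + 1) * (3 ^ (c + j) * b) := by
    have htr : MulAction.IsPretransitive L Ω := hLL.trans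
    have h1 : Nat.card (MulAction.orbit L α) * Nat.card (MulAction.stabilizer L α) =
        Nat.card L := by
      rw [← Nat.card_prod]
      exact Nat.card_congr (MulAction.orbitProdStabilizerEquivGroup L α)
    have h2 : Nat.card (MulAction.orbit L α) = Nat.card Ω := by
      rw [MulAction.orbit_eq_univ L α]
      exact Nat.card_congr (Equiv.Set.univ Ω)
    rw [← h1, h2, hΩ, hstab α]
  have hEcard : Nat.card E = (3 ^ c' + 1) * (3 ^ c' * ((3 ^ c' - 1) / 2)) := by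
    let α' : MulAction.orbit E α := ⟨α, MulAction.mem_orbit_self α⟩
    have htr : MulAction.IsPretransitive E (MulAction.orbit E α) := (hCC.EC α).trans
    have h1 : Nat.card (MulAction.orbit E α') * Nat.card (MulAction.stabilizer E α') =
        Nat.card E := by
      rw [← Nat.card_prod]
      exact Nat.card_congr (MulAction.orbitProdStabilizerEquivGroup E α')
    have h2 : Nat.card (MulAction.orbit E α') = Nat.card (MulAction.orbit E α) := by
      rw [MulAction.orbit_eq_univ E α']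
      exact Nat.card_congr (Equiv.Set.univ _)
    rw [← h1, h2, hΩ', hstab' α']
  -- centralisers
  have hτc := hcent τ hτ
  have hτEc : Nat.card {g : L // g ∈ E ∧ g * τ = τ * g} = 3 ^ c' + 1 := by
    have hτ' : IsInv (⟨τ, hτE⟩ : E) := by
      refine ⟨?_, ?_⟩
      · apply Subtype.ext
        exact hτ.1
      · intro h
        exact hτ.2 (congrArg Subtype.val h)
    have h1 := hG.cent ⟨τ, hτE⟩ hτ'
    rw [hΩ'] at h1
    rw [← h1]
    refine Nat.card_congr
      { toFun := fun g => ⟨⟨g.1, g.2.1⟩, Subtype.ext g.2.2⟩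
        invFun := fun g => ⟨g.1.1, g.1.2, congrArg Subtype.val g.2⟩
        left_inv := fun g => rfl
        right_inv := fun g => rfl }
  rw [hτEc, hτc, hEcard] at hcnt
  -- the index
  have hind : Nat.card (Subgroup.normalizer (Ac : Set L)) *
      (Subgroup.normalizer (Ac : Set L)).index = Nat.card L := Subgroup.card_mul_index _
  set N := Nat.card (Subgroup.normalizer (Ac : Set L)) with hNdef
  set n := (Subgroup.normalizer (Ac : Set L)).index with hndef
  have hN : N = 3 ^ j * (3 ^ c + 1) * (3 ^ c' * ((3 ^ c' - 1) / 2)) := by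
    have hpos : 0 < 3 ^ c' + 1 := by positivity
    have h1 : N * (3 ^ c' + 1) =
        (3 ^ j * (3 ^ c + 1) * (3 ^ c' * ((3 ^ c' - 1) / 2))) * (3 ^ c' + 1) := by
      rw [hcnt]
      ring
    exact Nat.eq_of_mul_eq_mul_right hpos h1
  have hnb : n * (3 ^ c' * ((3 ^ c' - 1) / 2)) = 3 ^ c * b := by
    have hpos : 0 < 3 ^ j * (3 ^ c + 1) := by positivity
    have h1 : (3 ^ j * (3 ^ c + 1)) * (n * (3 ^ c' * ((3 ^ c' - 1) / 2))) =
        (3 ^ j * (3 ^ c + 1)) * (3 ^ c * b) := by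
      have h2 : N * n = (3 ^ c + 1) * (3 ^ (c + j) * b) := by rw [hind, hLcard]
      rw [hN] at h2
      calc (3 ^ j * (3 ^ c + 1)) * (n * (3 ^ c' * ((3 ^ c' - 1) / 2)))
          = 3 ^ j * (3 ^ c + 1) * (3 ^ c' * ((3 ^ c' - 1) / 2)) * n := by ring
        _ = (3 ^ c + 1) * (3 ^ (c + j) * b) := h2
        _ = (3 ^ j * (3 ^ c + 1)) * (3 ^ c * b) := by
          rw [pow_add]
          ring
    exact Nat.eq_of_mul_eq_mul_left hpos h1
  have hbco : Nat.Coprime b (3 ^ c + 1) := by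
    have h1 := hLL.copr α
    rw [hΩ, hstab α] at h1
    exact Nat.Coprime.coprime_dvd_left (Dvd.intro_left _ rfl) h1
  exact hC8 c c' b (Nat.card Ac) n hc'3 hc3 hAc1 hQ hbdvd hbco hnb hmod

end Pool.Agent.helper53.AU
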