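import Pool.Agent.helper53.AU.SpecG2

/-!
# Project au, module NH: normal Hall subgroups
-/

namespace Pool.Agent.helper53.AU

open scoped Classical

theorem NH : NH_stmt := by
  intro L _ _ K H hKH hn hc h hh hp
  have hN : (K.subgroupOf H).Normal := by
    refine ⟨fun x hx g => ?_⟩
    rw [Subgroup.mem_subgroupOf] at hx ⊢
    simpa using hn (g : L) g.2 (x : L) hx
  have hcard : Nat.card (K.subgroupOf H) = Nat.card K :=
    Nat.card_congr (Subgroup.subgroupOfEquivOfLe hKH).toEquiv
  have hKpos : 0 < Nat.card K := Nat.card_pos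
  have hind : (K.subgroupOf H).index = Nat.card H / Nat.card K := by
    have h1 : Nat.card (K.subgroupOf H) * (K.subgroupOf H).index = Nat.card H :=
      Subgroup.card_mul_index _
    rw [hcard] at h1
    rw [← h1, Nat.mul_div_cancel_left _ hKpos]
  have h2 : ((QuotientGroup.mk (⟨h, hh⟩ : H) : H ⧸ K.subgroupOf H)) ^ Nat.card K = 1 := by
    rw [← QuotientGroup.mk_pow]
    have h3 : (⟨h, hh⟩ : H) ^ Nat.card K = 1 := by
      apply Subtype.ext
      simpa using hp
    rw [h3]
    rfl
  have h4 : ((QuotientGroup.mk (⟨h, hh⟩ : H) : H ⧸ K.subgroupOf H)) ^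
      (Nat.card H / Nat.card K) = 1 := by
    rw [← hind, Subgroup.index_eq_card]
    exact pow_card_eq_one'
  have h5 : ((QuotientGroup.mk (⟨h, hh⟩ : H) : H ⧸ K.subgroupOf H)) = 1 := by
    have h6 := orderOf_dvd_of_pow_eq_one h2
    have h7 := orderOf_dvd_of_pow_eq_one h4
    have h8 := Nat.eq_one_of_dvd_coprimes hc h6 h7
    exact orderOf_eq_one_iff.1 h8
  have h9 := (QuotientGroup.eq_one_iff (⟨h, hh⟩ : H)).1 h5
  rwa [Subgroup.mem_subgroupOf] at h9

end Pool.Agent.helper53.AU
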